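import Pool.Agent.H84.PP.Comm

/-!
# Compactly supported symplectomorphisms and pairs of functions in involution
-/

set_option autoImplicit false

open Set Filter Topology Metric Function
open scoped ContDiff

namespace Pool.Agent.Results.MP_ec5dc5_gt.CommutingPairs

open Pool.Agent.X277.Sy Pool.Agent.H84.PP

/-- Let `N = n + 2 ≥ 2` and `G_N = Symp_ct(ℝ^{2N})` with its direct limit topology.

1. The map `φ ↦ (x_1 ∘ φ, x_2 ∘ φ)` from the smooth `k`-spheroids in `G_N` to the smooth `k`-spheroids
of pairs of functions in involution, equal to `(x_1, x_2)` off a compact set, is bijective, two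
spheroids in `G_N` are homotopic if and only if the spheroids of pairs are, and `π_k(G_N) = 0` if and
only if every `k`-spheroid of commuting pairs is contractible.

2. `π_0(G_N)` is the set of the homotopy classes of commuting pairs; `G_N` is path connected if and
only if every commuting pair is joined to `(x_1, x_2)` by commuting pairs.

3. For a smooth function `f`, equal to `x_1` off a compact set, the following are equivalent: `f` has a
first integral equal to `x_2` off a compact set; `f` has a conjugate function equal to `y_1` off a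
compact set; `f = x_1 ∘ φ` with `φ ∈ G_N`.

4. If `h` is a first integral of `x_1 ∘ φ`, `φ ∈ G_N`, and is equal off a compact set to a first integral
`H` of `x_1`, then `h = H ∘ φ` everywhere. -/
theorem result :
    (∀ k n : ℕ, SpheroidsAgree k n) ∧ (∀ n : ℕ, ComponentsAgree n) ∧
    (∀ (n : ℕ) (f : E (n + 2) → ℝ), ContDiff ℝ ∞ f → EqOff f x1 →
      List.TFAE [HasInvolution f, HasConjugate f, IsCoordinate f]) ∧
    (∀ (n : ℕ) (φ : SympCt (n + 2)) (h H : E (n + 2) → ℝ), ContDiff ℝ ∞ h → ContDiff ℝ ∞ H →
      (∀ z, bracket (fun z => x1 (φ.map z)) h z = 0) → (∀ z, bracket x1 H z = 0) → EqOff h H →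
      ∀ z, h z = H (φ.map z)) := by
  refine ⟨fun k n => ⟨⟨ofComm_injective, ofComm_surjective⟩, homotopic_iff, piTrivial_iff_comm⟩,
    fun n => ?_, fun n f hf hfr => ?_, fun n φ h H hh hH h1 h2 ⟨r, hr⟩ z =>
      integral_eq φ hh hH h1 h2 hr z⟩
  · obtain ⟨e, he⟩ := exists_pi_zero n
    exact ⟨⟨e, he⟩, (piTrivial_zero_iff (n + 2)).symm.trans piTrivial_iff_comm,
      ⟨fun _ => e.injective.countable, fun _ => e.symm.injective.countable⟩⟩
  · obtain ⟨r, hr⟩ := hfr
    tfae_have 1 → 3 := by
      rintro ⟨g, hg, ⟨r', hr'⟩, hc⟩
      obtain ⟨φ, hφ⟩ := ofComm_surjective (k := 0) (n := n)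
        { f := fun _ => f
          g := fun _ => g
          smooth_f := hf.comp contDiff_snd
          smooth_g := hg.comp contDiff_snd
          comm := fun _ => hc
          bounded := ⟨max (max r r') 1, fun s z hz => by
            have hs : s = 0 := Subsingleton.elim _ _
            rcases hz with hz | hz
            · rw [hs, norm_zero] at hz
              linarith [le_max_right (max r r') 1]
            · have hz' : max r r' ≤ ‖z‖ := (le_max_left _ _).trans hz
              exact ⟨hr z ((le_max_left _ _).trans hz'), hr' z ((le_max_right _ _).trans hz')⟩⟩ }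
      refine ⟨φ.fam 0, fun z => ?_⟩
      have h1 := congrFun (congrFun (congrArg CommFam.f hφ) 0) z
      exact h1.symm
    tfae_have 2 → 3 := by
      rintro ⟨g, hg, ⟨r', hr'⟩, hc⟩
      obtain ⟨φ, hφ⟩ := exists_symp_of_one (k := 0) (n := n + 1) (Nat.succ_pos n)
        { f := fun _ => f
          g := fun _ => g
          smooth_f := hf.comp contDiff_snd
          smooth_g := hg.comp contDiff_snd
          pos := fun _ z => by
            rw [hc z]
            exact one_pos
          bounded := ⟨max (max r r') 1, fun s z hz => by
            have hs : s = 0 := Subsingleton.elim _ _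
            rcases hz with hz | hz
            · rw [hs, norm_zero] at hz
              linarith [le_max_right (max r r') 1]
            · have hz' : max r r' ≤ ‖z‖ := (le_max_left _ _).trans hz
              exact ⟨hr z ((le_max_left _ _).trans hz'), hr' z ((le_max_right _ _).trans hz')⟩⟩ }
        (fun _ z => hc z)
      refine ⟨φ.fam 0, fun z => ?_⟩
      have h1 := congrFun (congrFun (congrArg PosFam.f hφ) 0) z
      exact h1.symm
    tfae_have 3 → 1 := by
      rintro ⟨φ, hφ⟩
      obtain ⟨K, hK, hs⟩ := φ.compactSupport
      obtain ⟨s, hs'⟩ := hK.isBounded.subset_closedBall (0 : E (n + 2))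
      have hf' : f = fun z => px (φ.map z) := funext hφ
      refine ⟨fun z => px2 (φ.map z), px2.contDiff.comp φ.isSymp.smooth, ⟨s + 1, fun z hz => ?_⟩,
        fun z => ?_⟩
      · show px2 (φ.map z) = px2 z
        rw [far_fix (supp_mono hs' hs) (show s < ‖z‖ by linarith)]
      · rw [hf']
        exact bracket_comp_px φ z
    tfae_have 3 → 2 := by
      rintro ⟨φ, hφ⟩
      obtain ⟨K, hK, hs⟩ := φ.compactSupport
      obtain ⟨s, hs'⟩ := hK.isBounded.subset_closedBall (0 : E (n + 2))
      have hf' : f = fun z => px (φ.map z) := funext hφ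
      refine ⟨fun z => py (φ.map z), py.contDiff.comp φ.isSymp.smooth, ⟨s + 1, fun z hz => ?_⟩,
        fun z => ?_⟩
      · show py (φ.map z) = py z
        rw [far_fix (supp_mono hs' hs) (show s < ‖z‖ by linarith)]
      · rw [hf']
        exact px_isSymp_comp φ.isSymp z
    tfae_finish

end Pool.Agent.Results.MP_ec5dc5_gt.CommutingPairs
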