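import Pool.Agent.H84.Blk.Main
import Pool.Agent.H84.R2.Main

/-!
# Symplectomorphisms whose `m × m` block has no eigenvalues `≤ 0` and iterated loops
-/

set_option autoImplicit false

open Set Filter Topology Metric Function
open scoped ContDiff

namespace Pool.Agent.Results.MP_ec5dc5_gt.IteratedLoops

open Pool.Agent.X277.Sy Pool.Agent.H84.Blk

/-- Let `n ≥ 1`, let `G_N` be the group of compactly supported symplectomorphisms of `ℝ^{2N}`, and let
`M` be the set of the `φ : (x, y, v) ↦ (X, Y, V)` in `G_{m+n}`, `x, y ∈ ℝ^m`, `v ∈ ℝ^{2n}`, such that the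
`m × m` matrix `∂X/∂x` has at no point a real eigenvalue `≤ 0`.

(1) Every smooth `k`-spheroid in `M` has a unique family of slices `T`, which is a smooth `k`-spheroid
in the `2m`-fold loop space of `G_n`: `V = T_{(X, y)}(v)`.

(2) Spheroids in `M` with the same slices are equal, and two spheroids in `M` are homotopic in `M` if
and only if their slices are homotopic.

(3) Every `k`-spheroid in the loop space is homotopic to the slices of a `k`-spheroid in `M`.

(4) `π_k(M) = 0` if and only if `π_{k+2m}(G_n) = 0`.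

(5) If `π_{2m}(G_n) = 0`, then every element of `M` is joined to the identity in `G_{m+n}`.

(6) For `n = 1` the groups `π_k(G_1)` vanish (this classical fact is proved in
`Pool.Agent.H84.R2.Main`), so that there is no hypothesis: `π_k(M) = 0`, and every
`φ ∈ G_{m+1}` whose `m × m` block has no real eigenvalue `≤ 0` is joined to the identity. -/
theorem result (k m n : ℕ) (hn : 0 < n) :
    (∀ φ : Spheroid k (m + n), (∀ s, NoNegBlock m n (φ.fam s)) → ∃! T : Loops k m n, IsSlices T φ) ∧
    (∀ (φ ψ : Spheroid k (m + n)) (T T' : Loops k m n), (∀ s, NoNegBlock m n (φ.fam s)) →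
      (∀ s, NoNegBlock m n (ψ.fam s)) → IsSlices T φ → IsSlices T' ψ →
      (φ = ψ ↔ T = T') ∧ (BlockHomotopic φ ψ ↔ LoopHomotopic T T')) ∧
    (∀ T : Loops k m n, ∃ (φ : Spheroid k (m + n)) (T' : Loops k m n),
      (∀ s, NoNegBlock m n (φ.fam s)) ∧ IsSlices T' φ ∧ LoopHomotopic T T') ∧
    (BlockTrivial k m n ↔ PiTrivial (k + 2 * m) n) ∧
    (PiTrivial (2 * m) n → ∀ φ : SympCt (m + n), NoNegBlock m n φ → Joined φ 1) ∧
    BlockTrivial k m 1 ∧ ∀ φ : SympCt (m + 1), NoNegBlock m 1 φ → Joined φ 1 := by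
  refine ⟨fun φ hφ => ?_, fun φ ψ T T' hφ hψ h h' => ⟨⟨?_, ?_⟩, loopHomotopic_of hn h h',
    blockHomotopic_of hn hφ hψ h h'⟩, exists_real hn, blockTrivial_iff hn,
    fun h φ hφ => joined_of_block hn h φ hφ,
    (blockTrivial_iff one_pos).2 (Pool.Agent.H84.R2.piTrivial_one (k + 2 * m)),
    fun φ hφ => joined_of_block one_pos (Pool.Agent.H84.R2.piTrivial_one (2 * m)) φ hφ⟩
  · obtain ⟨T, hT⟩ := exists_slices hn φ hφ
    exact ⟨T, hT, fun T' hT' => slices_unique hn hφ hT' hT⟩
  · rintro rfl
    exact slices_unique hn hφ h h'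
  · rintro rfl
    exact sph_unique hn hφ hψ h h'

end Pool.Agent.Results.MP_ec5dc5_gt.IteratedLoops
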