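import Pool.Agent.H84.NT.Third
import Pool.Agent.H84.NT.Grp
import Pool.Agent.H84.NT.Cnt
import Pool.Agent.H84.R2.Main

/-!
# Symplectomorphisms of `ℝ^{2n+2}` and nontrapping functions
-/

set_option autoImplicit false
set_option linter.unusedSectionVars false

open Set Filter Topology Metric Function
open scoped ContDiff NNReal

noncomputable section

namespace Pool.Agent.Results.MP_ec5dc5_gt.NontrappingFunctions

open Pool.Agent.X277.Sy Pool.Agent.H84.PP Pool.Agent.H84.NT

/-- Let `G_m` be the group of compactly supported symplectomorphisms of `ℝ^{2m}` and `NT_n` the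
space of the smooth functions on `ℝ^{2n+2}`, equal to `x_1` off a compact set, whose Hamiltonian
flows have no bounded orbits.

(1) A function `f`, equal to `x_1` off a compact set, is in `NT_n` if and only if it has a partner
`g`, equal to `y_1` off a compact set, with `{f, g} > 0`.

(2) `NT_n` is a group, with unit `x_1`; products and inverses of smooth `k`-spheroids are smooth
`k`-spheroids; the product of `f` and `x_1 ∘ φ`, `φ ∈ G_{n+1}`, is `f ∘ φ`; scattering spheroids
(see (3)) multiply.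

Let `n ≥ 1`.

(3) Every `k`-spheroid in `NT_n` has a scattering spheroid in the loop space `ΩG_n`, and only one.

(4) Two `k`-spheroids in `NT_n` have the same scattering if and only if they differ by a
`k`-spheroid of changes of coordinates from `G_{n+1}`.

(5) `G_{n+1}` acts freely.

(6) Homotopies of the scattering lift to homotopies in `NT_n`.

(7) A `k`-spheroid in `NT_n` is homotopic to one of the form `x_1 ∘ φ_s`, `φ_s ∈ G_{n+1}`, if and
only if its scattering is contractible; it is of this form if and only if its scattering is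
trivial.

(8), (9) If `π_{k+1}(G_n) = 0`, then all `k`-spheroids in `NT_n` are homotopic to ones of this
form. If `π_{k+2}(G_n) = 0`, then `k`-spheroids in `G_{n+1}` are homotopic if they are homotopic in
`NT_n`.

(10), (11), (12) Exactness for trivial homotopy groups.

(13) There are countably many homotopy classes of `k`-spheroids in `NT_n`.

(14) If `G_n` is weakly contractible (as for `n = 1`, `n = 2`), then `G_{n+1}` is weakly
contractible if and only if `NT_n` is.

(15) If `π_1(G_n) = π_2(G_n) = 0`, then `G_{n+1}` is path connected if and only if `NT_n` is.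

(16) `G_1, …, G_{N+1}` are weakly contractible if and only if `NT_1, …, NT_N` are (for `G_1` this
classical fact is proved in `Pool.Agent.H84.R2.Main`). -/
theorem result :
    (∀ (n : ℕ) (f : E (n + 1) → ℝ), ContDiff ℝ ∞ f →
      (∃ r : ℝ, ∀ z, r ≤ ‖z‖ → f z = z (0, 0)) →
      (NonTrapping f ↔ ∃ g : E (n + 1) → ℝ, ContDiff ℝ ∞ g ∧
        (∃ r : ℝ, ∀ z, r ≤ ‖z‖ → g z = z (0, 1)) ∧ ∀ z, 0 < bracket f g z)) ∧
    (∀ n : ℕ, ∃ star : (E (n + 1) → ℝ) → (E (n + 1) → ℝ) → E (n + 1) → ℝ, ∀ k,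
      (∀ P P' : NTFam k n, ∃ P'' : NTFam k n, (∀ s, P''.f s = star (P.f s) (P'.f s)) ∧
        ∀ S S' : LoopSph k n, HasScattering P S → HasScattering P' S' →
          ∃ S'' : LoopSph k n, (∀ q, S''.fam q = S.fam q * S'.fam q) ∧ HasScattering P'' S'') ∧
      (∀ (P P' P'' : NTFam k n) s, star (star (P.f s) (P'.f s)) (P''.f s) =
        star (P.f s) (star (P'.f s) (P''.f s))) ∧
      (∀ (P : NTFam k n) s, star (fun z => z (0, 0)) (P.f s) = P.f s) ∧
      (∀ P : NTFam k n, ∃ P' : NTFam k n, ∀ s, star (P'.f s) (P.f s) = fun z => z (0, 0)) ∧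
      ∀ (P : NTFam k n) (φ : Spheroid k (n + 1)) s z,
        star (P.f s) (fun z => (φ.fam s).map z (0, 0)) z = P.f s ((φ.fam s).map z)) ∧
    (∀ n, 1 ≤ n → ∀ k,
      (∀ P : NTFam k n, ∃ S : LoopSph k n, HasScattering P S) ∧
      (∀ (P P' : NTFam k n) (S S' : LoopSph k n), HasScattering P S → HasScattering P' S' →
        (S = S' ↔ ∃ φ : Spheroid k (n + 1), ∀ s z, P'.f s z = P.f s ((φ.fam s).map z))) ∧
      (∀ (P : NTFam k n) (φ ψ : Spheroid k (n + 1)),
        (∀ s z, P.f s ((φ.fam s).map z) = P.f s ((ψ.fam s).map z)) → ∀ s, φ.fam s = ψ.fam s) ∧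
      (∀ (P : NTFam k n) (S : LoopSph k n), HasScattering P S →
        ∀ (F : ℝ × (EuclideanSpace ℝ (Fin k) × ℝ) → SympCt n) (r : ℝ), IsSmoothFamily F →
        (∀ q, F (0, q) = S.fam q) → (∀ t q, r ≤ ‖q‖ → F (t, q) = 1) →
        (∀ p, SupportedIn (closedBall 0 r) (F p).map) →
        ∃ G : ℝ → EuclideanSpace ℝ (Fin k) → E (n + 1) → ℝ,
          ContDiff ℝ ∞ (fun p : (ℝ × EuclideanSpace ℝ (Fin k)) × E (n + 1) =>
            G p.1.1 p.1.2 p.2) ∧
          (∃ r : ℝ, ∀ t s z, (r ≤ ‖s‖ ∨ r ≤ ‖z‖) → G t s z = z (0, 0)) ∧ G 0 = P.f ∧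
          ∀ t s, NonTrapping (G t s) ∧ ∀ σ : ℝ → SympCt n, IsScattering (G t s) σ ↔
            ∀ x, σ x = F (Real.smoothTransition t, (s, x))) ∧
      (∀ (P : NTFam k n) (S : LoopSph k n), HasScattering P S →
        (LoopHomotopic S (trivialLoop k n) ↔
          ∃ φ : Spheroid k (n + 1), NTHomotopic P (ofSympNT φ)) ∧
        (S = trivialLoop k n ↔ ∃ φ : Spheroid k (n + 1), ofSympNT φ = P)) ∧
      (PiTrivial (k + 1) n → ∀ P : NTFam k n, ∃ φ : Spheroid k (n + 1),
        NTHomotopic P (ofSympNT φ)) ∧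
      (PiTrivial (k + 2) n → ∀ φ ψ : Spheroid k (n + 1),
        (Homotopic φ ψ ↔ NTHomotopic (ofSympNT φ) (ofSympNT ψ))) ∧
      (PiTrivial (k + 1) n → PiTrivial k (n + 1) → NTTrivial k n) ∧
      (PiTrivial (k + 2) n → NTTrivial k n → PiTrivial k (n + 1)) ∧
      (PiTrivial k (n + 1) → NTTrivial (k + 1) n → PiTrivial (k + 2) n) ∧
      (∃ u : ℕ → NTFam k n, ∀ P, ∃ i, NTHomotopic P (u i))) ∧
    (∀ n, 1 ≤ n → (∀ k, PiTrivial k n) → ((∀ k, PiTrivial k (n + 1)) ↔ ∀ k, NTTrivial k n)) ∧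
    (∀ n, 1 ≤ n → PiTrivial 1 n → PiTrivial 2 n →
      (PathConnectedSpace (SympCt (n + 1)) ↔ NTTrivial 0 n)) ∧
    (∀ N, (∀ m, 1 ≤ m → m ≤ N + 1 → ∀ k, PiTrivial k m) ↔
      ∀ m, 1 ≤ m → m ≤ N → ∀ k, NTTrivial k m) := by
  have h9 : ∀ n, 1 ≤ n → ∀ k, PiTrivial (k + 1) n → PiTrivial k (n + 1) → NTTrivial k n :=
    fun n hn k h1 h2 => ntTrivial_iff.2 (posTrivial_of hn h1 h2)
  have h10 : ∀ n, 1 ≤ n → ∀ k, PiTrivial (k + 2) n → NTTrivial k n → PiTrivial k (n + 1) :=
    fun n hn k h1 h2 => piTrivial_of hn h1 (ntTrivial_iff.1 h2)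
  have main : ∀ n, 1 ≤ n → (∀ k, PiTrivial k n) →
      ((∀ k, PiTrivial k (n + 1)) ↔ ∀ k, NTTrivial k n) := fun n hn h =>
    ⟨fun h' k => h9 n hn k (h _) (h' k), fun h' k => h10 n hn k (h _) (h' k)⟩
  refine ⟨fun n f hf hr => nonTrapping_iff hf hr, exists_group, fun n hn k =>
    ⟨exists_scattering hn, fun P P' S S' h h' => same_scattering hn h h',
      fun P φ ψ h s => congrFun (free P h) s, fun P S h F r h1 h2 h3 h4 => lift' hn h h1 h2 h3 h4,
      fun P S h => ⟨contractible_iff hn h, ?_⟩, surj_nt hn, inj_nt hn, h9 n hn k, h10 n hn k,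
      third hn, countable_nt hn k⟩, main, fun n hn h1 h2 => ?_, fun N => ?_⟩
  · rw [← scattering_trivial_iff hn]
    exact ⟨fun h' => h' ▸ h, fun h' => scattering_unique h h'⟩
  · rw [← piTrivial_zero_iff]
    exact ⟨h9 n hn 0 h1, h10 n hn 0 h2⟩
  · constructor
    · intro h m hm hmN
      exact (main m hm (h m hm (by omega))).1 (h (m + 1) (by omega) (by omega))
    · intro h2 m hm
      induction m, hm using Nat.le_induction with
      | base => exact fun _ k => Pool.Agent.H84.R2.piTrivial_one k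
      | succ m hm ih =>
        intro hmN
        exact (main m hm (ih (by omega))).2 (h2 m hm (by omega))

end Pool.Agent.Results.MP_ec5dc5_gt.NontrappingFunctions
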