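import Pool.Agent.H84.PP.Main
import Pool.Agent.H84.R2.Main

/-!
# Symplectomorphisms of `ℝ^{2n+2}` and pairs of functions with positive Poisson bracket
-/

set_option autoImplicit false
set_option linter.unusedSectionVars false

open Set Filter Topology Metric Function
open scoped ContDiff NNReal

noncomputable section

namespace Pool.Agent.Results.MP_ec5dc5_gt.PositivePairs

open Pool.Agent.X277.Sy Pool.Agent.H84.PP

/-- Let `G_m` be the group of compactly supported symplectomorphisms of `ℝ^{2m}` and `n ≥ 1`.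

(1) Smooth families of pairs `(f, g)` on `ℝ^{2n+2}`, equal to `(x_1, y_1)` at infinity, with
`{f, g} = 1` are the same as smooth families of elements of `G_{n+1}`, by `φ ↦ (x_1 ∘ φ, y_1 ∘ φ)`.

(2) If `π_{k+1}(G_n) = 0`, then every `k`-spheroid of pairs with `{f, g} > 0` is homotopic, through
such spheroids, to one with `{f, g} = 1`.

(3) If `π_{k+2}(G_n) = 0`, then two `k`-spheroids in `G_{n+1}` which are homotopic as spheroids of
pairs with `{f, g} > 0` are homotopic in `G_{n+1}`.

(4) If all homotopy groups of `G_n` vanish (this holds for `n = 1` and `n = 2`), then all homotopy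
groups of `G_{n+1}` vanish if and only if those of the space of pairs with `{f, g} > 0` do.

(5) If `π_1(G_n) = π_2(G_n) = 0`, then `G_{n+1}` is path connected if and only if every pair with
`{f, g} > 0` can be joined to `(x_1, y_1)` by such pairs.

(6) `G_1, …, G_{N+1}` are weakly contractible if and only if the spaces of pairs with
`{f, g} > 0` on `ℝ^4, …, ℝ^{2N+2}` are (for `G_1` this classical fact is proved in
`Pool.Agent.H84.R2.Main`). -/
theorem result :
    (∀ n, 1 ≤ n → ∀ k,
      ((∀ P : PosFam k n, (∀ s z, bracket (P.f s) (P.g s) z = 1) ↔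
          ∃ φ : Spheroid k (n + 1), ofSymp φ = P) ∧
        ∀ φ ψ : Spheroid k (n + 1), ofSymp φ = ofSymp ψ → ∀ s, φ.fam s = ψ.fam s) ∧
      (PiTrivial (k + 1) n → ∀ P : PosFam k n, ∃ φ : Spheroid k (n + 1),
        PosHomotopic P (ofSymp φ)) ∧
      (PiTrivial (k + 2) n → ∀ φ ψ : Spheroid k (n + 1),
        (Homotopic φ ψ ↔ PosHomotopic (ofSymp φ) (ofSymp ψ)))) ∧
    (∀ n, 1 ≤ n → (∀ k, PiTrivial k n) → ((∀ k, PiTrivial k (n + 1)) ↔ ∀ k, PosTrivial k n)) ∧
    (∀ n, 1 ≤ n → PiTrivial 1 n → PiTrivial 2 n →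
      (PathConnectedSpace (SympCt (n + 1)) ↔ PosTrivial 0 n)) ∧
    (∀ N, (∀ m, 1 ≤ m → m ≤ N + 1 → ∀ k, PiTrivial k m) ↔
      ∀ m, 1 ≤ m → m ≤ N → ∀ k, PosTrivial k m) := by
  have main : ∀ n, 1 ≤ n → (∀ k, PiTrivial k n) →
      ((∀ k, PiTrivial k (n + 1)) ↔ ∀ k, PosTrivial k n) := fun n hn h =>
    ⟨fun h' k => posTrivial_of hn (h _) (h' k), fun h' k => piTrivial_of hn (h _) (h' k)⟩
  refine ⟨fun n hn k => ⟨⟨fun P => ⟨exists_symp_of_one hn P, ?_⟩, fun φ ψ h s => ?_⟩,
    fun h P => surj hn h P, fun h φ ψ => ⟨posHomotopic_of_homotopic, inj hn h φ ψ⟩⟩, main,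
    fun n hn h1 h2 => ?_, fun N => ?_⟩
  · rintro ⟨φ, rfl⟩ s z
    exact px_isSymp_comp (φ.fam s).isSymp z
  · apply SympCt.ext
    obtain ⟨r, -, hr⟩ := φ.bounded
    obtain ⟨r', -, hr'⟩ := ψ.bounded
    refine unique_of_px (φ.fam s).isSymp (ψ.fam s).isSymp (R := max r r' + 1) (fun z hz => ?_)
      (fun z hz => ?_) (fun z => ?_)
    · have h1 := (le_abs_self (py z)).trans (abs_py_le z)
      exact far_fix (hr s) (by linarith [le_max_left r r'])
    · have h1 := (le_abs_self (py z)).trans (abs_py_le z)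
      exact far_fix (hr' s) (by linarith [le_max_right r r'])
    · exact congrFun (congrFun (congrArg PosFam.f h) s) z
  · rw [← piTrivial_zero_iff]
    exact ⟨posTrivial_of hn h1, piTrivial_of hn h2⟩
  · constructor
    · intro h m hm hmN
      exact (main m hm (h m hm (by omega))).1 (h (m + 1) (by omega) (by omega))
    · intro h2 m hm
      induction m, hm using Nat.le_induction with
      | base => exact fun _ k => Pool.Agent.H84.R2.piTrivial_one k
      | succ m hm ih =>
        intro hmN
        exact (main m hm (ih (by omega))).2 (h2 m hm (by omega))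

end Pool.Agent.Results.MP_ec5dc5_gt.PositivePairs
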